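import Pool.Agent.Mg.Fc26281.G5e98d7
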