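import Mathlib

/-! Copolymer at a selective interface: the model. -/

open MeasureTheory

namespace Pool.Agent.MP_c26281_pr

/-- Renewal times: `e j = (length, sign)` of the excursion number `j+1`, `tau e i` is the sum of the
first `i` lengths. -/
def tau (e : ℕ → ℕ × Bool) (i : ℕ) : ℕ := ∑ j ∈ Finset.range i, (e j).1

open Classical in
/-- `Delta e n = 1` if `n` lies in an excursion `(tau i, tau (i+1)]` whose sign is `-1` (coded by
`true`), and `0` otherwise. -/
noncomputable def Delta (e : ℕ → ℕ × Bool) (n : ℕ) : ℝ :=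
  if ∃ i, tau e i < n ∧ n ≤ tau e (i + 1) ∧ (e i).2 = true then 1 else 0

/-- The partition function `Z_{N,ω}`; the pairs (length, sign) are i.i.d. with law `ν`. -/
noncomputable def Z (ν : Measure (ℕ × Bool)) (lam h : ℝ) (N : ℕ) (ω : ℕ → ℝ) : ℝ :=
  ∫ e, Real.exp (-2 * lam * ∑ n ∈ Finset.Icc 1 N, Delta e n * (ω n + h))
    ∂(Measure.infinitePi fun _ : ℕ => ν)

end Pool.Agent.MP_c26281_pr
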